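import Mathlib

set_option autoImplicit false

namespace Pool.Agent.Helper81.Heis

open Finset

/-- numeric lemma: lacunary sum -/
lemma lacunary_sum {δ : ℝ} (hδ : 0 < δ) (hδ2 : δ ≤ 2) (a : ℕ → ℝ)
    (h1 : ∀ j, a j ≤ 4 * (1 / 4) ^ j) (h2 : ∀ j, a j ≤ 4 ^ j * δ ^ 2) (J : ℕ) :
    ∑ j ∈ range J, a j ≤ (16 / 3) * δ := by
  have key : (4 ^ J * δ < 2 ∧ ∑ j ∈ range J, a j ≤ 4 ^ J * δ ^ 2 / 3) ∨
      (2 ≤ 4 ^ J * δ ∧ ∑ j ∈ range J, a j ≤ (16 / 3) * δ - (16 / 3) * (1 / 4) ^ J) := by
    induction J with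
    | zero =>
      rcases lt_or_ge δ 2 with h | h
      · left
        refine ⟨by simpa using h, ?_⟩
        simp only [range_zero, sum_empty, pow_zero, one_mul]
        positivity
      · right
        refine ⟨by simpa using h, ?_⟩
        simp only [range_zero, sum_empty, pow_zero, mul_one]
        linarith
    | succ J ih =>
      rw [sum_range_succ]
      have hx : (0 : ℝ) < 4 ^ J := by positivity
      have h4 : (1 / 4 : ℝ) ^ J * 4 ^ J = 1 := by
        rw [← mul_pow]; norm_num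
      rcases ih with ⟨ih1, ih2⟩ | ⟨ih1, ih2⟩
      · rcases lt_or_ge (4 ^ (J + 1) * δ) 2 with h | h
        · left
          refine ⟨h, ?_⟩
          have := h2 J
          rw [pow_succ]
          nlinarith
        · right
          refine ⟨h, ?_⟩
          have h3 := h2 J
          rw [pow_succ] at h ⊢
          -- x = 4^(J+1) δ ∈ [2, 8]
          set y : ℝ := 4 ^ J with hy
          have hq : (1 / 4 : ℝ) ^ J = 1 / y := by
            rw [hy, div_pow, one_pow]
          rw [hq]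
          have hyd : y * δ < 2 := ih1
          have hyd2 : 2 ≤ y * 4 * δ := h
          have e : (16 : ℝ) / 3 * (1 / y * (1 / 4)) = (4 / 3) / y := by field_simp; norm_num
          rw [e]
          have h5 : ∑ j ∈ range J, a j + a J ≤ (4 / 3) * y * δ ^ 2 := by nlinarith
          have h6 : (4 / 3) * y * δ ^ 2 + (4 / 3) / y ≤ 16 / 3 * δ := by
            rw [← sub_nonneg]
            have : 16 / 3 * δ - ((4 / 3) * y * δ ^ 2 + (4 / 3) / y)
                = (4 / 3) * (4 * (y * δ) - (y * δ) ^ 2 - 1) / y := by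
              field_simp
              ring
            rw [this]
            apply div_nonneg _ hx.le
            have : 0 ≤ 4 * (y * δ) - (y * δ) ^ 2 - 1 := by nlinarith
            linarith
          linarith
      · right
        refine ⟨?_, ?_⟩
        · rw [pow_succ]; nlinarith
        · have := h1 J
          rw [pow_succ]
          linarith
  rcases key with ⟨k1, k2⟩ | ⟨k1, k2⟩
  · nlinarith
  · have : (0 : ℝ) < (1 / 4) ^ J := by positivity
    linarith

lemma norm_one_sub_pow_le {z : ℂ} (hz : ‖z‖ = 1) (m : ℕ) : ‖1 - z ^ m‖ ≤ m * ‖1 - z‖ := by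
  have h : (∑ i ∈ range m, z ^ i) * (1 - z) = 1 - z ^ m := by
    have := geom_sum_mul z m
    linear_combination -this
  rw [← h, norm_mul]
  apply mul_le_mul_of_nonneg_right _ (norm_nonneg _)
  calc ‖∑ i ∈ range m, z ^ i‖ ≤ ∑ i ∈ range m, ‖z ^ i‖ := norm_sum_le _ _
    _ = ∑ i ∈ range m, (1 : ℝ) := by simp [hz]
    _ = m := by simp

/-- the symbol -/
noncomputable def sym (J : ℕ) (z : ℂ) : ℂ :=
  ∑ j ∈ range J, (1 / 4 : ℂ) ^ j * ((1 - star z ^ (4 ^ j)) * ∑ i ∈ range (4 ^ j), z ^ i)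

lemma sym_continuous (J : ℕ) : Continuous (sym J) := by
  unfold sym
  fun_prop

lemma norm_sym_le (J : ℕ) {z : ℂ} (hz : ‖z‖ = 1) : ‖sym J z‖ ≤ 16 / 3 := by
  -- if z ≠ 1 multiply by (1 - z)
  have main : ∀ z : ℂ, ‖z‖ = 1 → z ≠ 1 → ‖sym J z‖ ≤ 16 / 3 := by
    intro z hz h1
    have hδ : 0 < ‖1 - z‖ := norm_pos_iff.mpr (sub_ne_zero.mpr (Ne.symm h1))
    have hδ2 : ‖1 - z‖ ≤ 2 := by
      have := norm_sub_le 1 z
      rw [norm_one, hz] at this
      linarith
    have e : sym J z * (1 - z) = ∑ j ∈ range J, (1 / 4 : ℂ) ^ j * ((1 - star z ^ (4 ^ j)) * (1 - z ^ (4 ^ j))) := by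
      unfold sym
      rw [sum_mul]
      refine sum_congr rfl fun j _ => ?_
      have h : (∑ i ∈ range (4 ^ j), z ^ i) * (1 - z) = 1 - z ^ (4 ^ j) := by
        have := geom_sum_mul z (4 ^ j)
        linear_combination -this
      rw [← h]; ring
    have h2 : ‖sym J z‖ * ‖1 - z‖ ≤ 16 / 3 * ‖1 - z‖ := by
      rw [← norm_mul, e]
      refine le_trans (norm_sum_le _ _) ?_
      apply lacunary_sum hδ hδ2
      · intro j
        rw [norm_mul, norm_mul, norm_pow]
        have a1 : ‖1 - star z ^ 4 ^ j‖ ≤ 2 := by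
          have := norm_sub_le 1 (star z ^ 4 ^ j)
          rw [norm_one, norm_pow, norm_star, hz, one_pow] at this
          linarith
        have a2 : ‖1 - z ^ 4 ^ j‖ ≤ 2 := by
          have := norm_sub_le 1 (z ^ 4 ^ j)
          rw [norm_one, norm_pow, hz, one_pow] at this
          linarith
        have a3 : ‖(1 / 4 : ℂ)‖ = 1 / 4 := by norm_num
        rw [a3]
        have a4 : ‖1 - star z ^ 4 ^ j‖ * ‖1 - z ^ 4 ^ j‖ ≤ 4 := by
          have := norm_nonneg (1 - z ^ 4 ^ j)
          have := norm_nonneg (1 - star z ^ 4 ^ j)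
          nlinarith
        have a5 : (0 : ℝ) < (1 / 4) ^ j := by positivity
        nlinarith
      · intro j
        rw [norm_mul, norm_mul, norm_pow]
        have a1 : ‖1 - star z ^ 4 ^ j‖ ≤ 4 ^ j * ‖1 - z‖ := by
          have h := norm_one_sub_pow_le (z := star z) (by rw [norm_star, hz]) (4 ^ j)
          have e : ‖1 - star z‖ = ‖1 - z‖ := by
            rw [← norm_star (1 - z), star_sub, star_one]
          rw [e] at h
          push_cast at h
          exact h
        have a2 : ‖1 - z ^ 4 ^ j‖ ≤ 4 ^ j * ‖1 - z‖ := by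
          have h := norm_one_sub_pow_le hz (4 ^ j)
          push_cast at h
          exact h
        have a3 : ‖(1 / 4 : ℂ)‖ = 1 / 4 := by norm_num
        rw [a3]
        have a4 : ‖1 - star z ^ 4 ^ j‖ * ‖1 - z ^ 4 ^ j‖ ≤ (4 ^ j * ‖1 - z‖) * (4 ^ j * ‖1 - z‖) :=
          mul_le_mul a1 a2 (norm_nonneg _) (by positivity)
        have a5 : (0 : ℝ) < (1 / 4) ^ j := by positivity
        have h4 : (1 / 4 : ℝ) ^ j * 4 ^ j = 1 := by
          rw [← mul_pow]; norm_num
        calc (1 / 4 : ℝ) ^ j * (‖1 - star z ^ 4 ^ j‖ * ‖1 - z ^ 4 ^ j‖)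
            ≤ (1 / 4) ^ j * ((4 ^ j * ‖1 - z‖) * (4 ^ j * ‖1 - z‖)) :=
              mul_le_mul_of_nonneg_left a4 a5.le
          _ = ((1 / 4) ^ j * 4 ^ j) * (4 ^ j * ‖1 - z‖ ^ 2) := by ring
          _ = 4 ^ j * ‖1 - z‖ ^ 2 := by rw [h4, one_mul]
    exact le_of_mul_le_mul_right h2 hδ
  by_cases h : z = 1
  · -- direct: the symbol vanishes at 1
    subst h
    simp [sym]
    norm_num
  · exact main z hz h

/-- the operator -/
noncomputable def Top {A : Type*} [Ring A] [StarRing A] [Algebra ℂ A] (J : ℕ) (w : A) : A :=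
  ∑ j ∈ range J, (1 / 4 : ℂ) ^ j • ((1 - star w ^ (4 ^ j)) * ∑ i ∈ range (4 ^ j), w ^ i)

lemma cfc_sum' {A : Type*} [CStarAlgebra A] {ι : Type*} (s : Finset ι) (f : ι → ℂ → ℂ)
    (hf : ∀ i, Continuous (f i)) (a : A) :
    cfc (fun z => ∑ i ∈ s, f i z) a = ∑ i ∈ s, cfc (f i) a := by
  have h : (fun z => ∑ i ∈ s, f i z) = ∑ i ∈ s, f i := by
    ext z; simp
  rw [h]
  exact cfc_sum f a s (fun i _ => (hf i).continuousOn)

theorem norm_Top_le {A : Type*} [CStarAlgebra A] (J : ℕ) {w : A} (hw : w ∈ unitary A) :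
    ‖Top J w‖ ≤ 16 / 3 := by
  have hn : IsStarNormal w := by
    refine ⟨?_⟩
    rw [commute_iff_eq, (Unitary.mem_iff.mp hw).1, (Unitary.mem_iff.mp hw).2]
  have e : Top J w = cfc (sym J) w := by
    unfold Top sym
    rw [cfc_sum' (range J)
      (fun j z => (1 / 4 : ℂ) ^ j * ((1 - star z ^ (4 ^ j)) * ∑ i ∈ range (4 ^ j), z ^ i))
      (fun j => by fun_prop)]
    refine sum_congr rfl fun j _ => ?_
    rw [cfc_const_mul _ (fun z => (1 - star z ^ (4 ^ j)) * ∑ i ∈ range (4 ^ j), z ^ i) w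
      (Continuous.continuousOn (by fun_prop))]
    rw [cfc_mul (fun z => (1 - star z ^ (4 ^ j))) (fun z => ∑ i ∈ range (4 ^ j), z ^ i) w
      (Continuous.continuousOn (by fun_prop)) (Continuous.continuousOn (by fun_prop))]
    rw [cfc_sum' (range (4 ^ j)) (fun i z => z ^ i) (fun i => by fun_prop)]
    rw [cfc_sub (fun _ => 1) (fun z => star z ^ (4 ^ j)) w
      (Continuous.continuousOn (by fun_prop)) (Continuous.continuousOn (by fun_prop))]
    rw [cfc_const_one ℂ w]
    rw [cfc_pow (fun z => star z) (4 ^ j) w (Continuous.continuousOn (by fun_prop))]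
    rw [cfc_star_id (a := w)]
    congr 2
    refine sum_congr rfl fun i _ => ?_
    rw [cfc_pow_id w i]
  rw [e]
  apply norm_cfc_le (by norm_num)
  intro z hz
  have := spectrum.subset_circle_of_unitary hw hz
  exact norm_sym_le J (by simpa using this)

end Pool.Agent.Helper81.Heis
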