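import Mathlib
import Pool.Agent.Helper81.Heis.Spectral

set_option autoImplicit false

namespace Pool.Agent.Helper81.Heis

open Finset

variable {H : Type*} [NormedAddCommGroup H] [InnerProductSpace ℂ H] [CompleteSpace H]

lemma star_mul_self_apply {U : H →L[ℂ] H} (hU : U ∈ unitary (H →L[ℂ] H)) (x : H) :
    (star U) (U x) = x := by
  have := congrArg (fun T : H →L[ℂ] H => T x) (Unitary.mem_iff.mp hU).1
  simpa using this

lemma self_star_mul_apply {U : H →L[ℂ] H} (hU : U ∈ unitary (H →L[ℂ] H)) (x : H) :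
    U ((star U) x) = x := by
  have := congrArg (fun T : H →L[ℂ] H => T x) (Unitary.mem_iff.mp hU).2
  simpa using this

lemma inner_unitary {U : H →L[ℂ] H} (hU : U ∈ unitary (H →L[ℂ] H)) (x y : H) :
    inner ℂ (U x) (U y) = inner ℂ x y := by
  rw [← ContinuousLinearMap.adjoint_inner_left, ← ContinuousLinearMap.star_eq_adjoint,
    star_mul_self_apply hU]

lemma norm_unitary {U : H →L[ℂ] H} (hU : U ∈ unitary (H →L[ℂ] H)) (x : H) :
    ‖U x‖ = ‖x‖ := by
  have h := inner_unitary hU x x
  rw [inner_self_eq_norm_sq_to_K, inner_self_eq_norm_sq_to_K] at h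
  have h2 : ‖U x‖ ^ 2 = ‖x‖ ^ 2 := by exact_mod_cast h
  exact (sq_eq_sq₀ (norm_nonneg _) (norm_nonneg _)).mp h2

lemma star_mem_unitary {U : H →L[ℂ] H} (hU : U ∈ unitary (H →L[ℂ] H)) :
    star U ∈ unitary (H →L[ℂ] H) := by
  rw [Unitary.mem_iff] at hU ⊢
  rw [star_star]
  exact ⟨hU.2, hU.1⟩

/-- `star W` commutes with `U` if `W` does (W unitary). -/
lemma commute_star_left {A : Type*} [Ring A] [StarRing A] {W U : A} (hW : W ∈ unitary A)
    (h : Commute W U) : Commute (star W) U := by
  have h1 := (Unitary.mem_iff.mp hW).1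
  have h2 := (Unitary.mem_iff.mp hW).2
  show star W * U = U * star W
  calc star W * U = star W * U * (W * star W) := by rw [h2, mul_one]
    _ = star W * (U * W) * star W := by simp only [mul_assoc]
    _ = star W * (W * U) * star W := by rw [h.eq]
    _ = (star W * W) * U * star W := by simp only [mul_assoc]
    _ = U * star W := by rw [h1, one_mul]

lemma commute_Top {A : Type*} [Ring A] [StarRing A] [Algebra ℂ A] (J : ℕ) {W U : A}
    (hW : W ∈ unitary A) (h : Commute W U) : Commute (Top J W) U := by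
  unfold Top
  refine Commute.sum_left _ _ _ fun j _ => ?_
  refine Commute.smul_left ?_ _
  refine Commute.mul_left ?_ ?_
  · exact (Commute.one_left _).sub_left ((commute_star_left hW h).pow_left _)
  · exact Commute.sum_left _ _ _ fun i _ => h.pow_left _

lemma Top_mul {A : Type*} [Ring A] [StarRing A] [Algebra ℂ A] (J : ℕ) (W : A) :
    Top J W * (1 - W) = ∑ j ∈ range J, (1 / 4 : ℂ) ^ j • ((1 - star W ^ (4 ^ j)) * (1 - W ^ (4 ^ j))) := by
  unfold Top
  rw [sum_mul]
  refine sum_congr rfl fun j _ => ?_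
  rw [smul_mul_assoc, mul_assoc]
  congr 2
  have := geom_sum_mul W (4 ^ j)
  rw [← neg_inj, ← mul_neg, neg_sub, this, neg_sub]

lemma inner_Top (J : ℕ) (W : H →L[ℂ] H) (v : H) :
    inner ℂ v ((Top J W * (1 - W)) v) =
      ((∑ j ∈ range J, (1 / 4 : ℝ) ^ j * ‖v - (W ^ (4 ^ j)) v‖ ^ 2 : ℝ) : ℂ) := by
  rw [Top_mul, _root_.sum_apply, inner_sum, Complex.ofReal_sum]
  refine sum_congr rfl fun j _ => ?_
  have h : (1 - star W ^ (4 ^ j)) = star (1 - W ^ (4 ^ j)) := by
    rw [star_sub, star_one, star_pow]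
  have h2 : ((1 / 4 : ℂ) ^ j • ((1 - star W ^ (4 ^ j)) * (1 - W ^ (4 ^ j))) : H →L[ℂ] H) v =
      (1 / 4 : ℂ) ^ j • ((star (1 - W ^ (4 ^ j) : H →L[ℂ] H)) ((1 - W ^ (4 ^ j) : H →L[ℂ] H) v)) := by
    rw [h]; rfl
  rw [h2, inner_smul_right, ContinuousLinearMap.star_eq_adjoint,
    ContinuousLinearMap.adjoint_inner_right, inner_self_eq_norm_sq_to_K]
  have h3 : (1 - W ^ (4 ^ j) : H →L[ℂ] H) v = v - (W ^ (4 ^ j)) v := rfl
  rw [h3]
  push_cast
  norm_num

theorem heis_ineq {U V W : H →L[ℂ] H} (hU : U ∈ unitary (H →L[ℂ] H)) (hV : V ∈ unitary (H →L[ℂ] H))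
    (hW : W ∈ unitary (H →L[ℂ] H)) (hUV : U * V = W * V * U) (hWU : Commute W U)
    (hWV : Commute W V) (J : ℕ) (v : H) :
    ∑ j ∈ range J, (1 / 4 : ℝ) ^ j * ‖v - (W ^ (4 ^ j)) v‖ ^ 2 ≤
      27 * (‖U v - v‖ ^ 2 + ‖V v - v‖ ^ 2) := by
  set T := Top J W with hT
  have hTU : Commute T U := commute_Top J hW hWU
  have hTV : Commute T V := commute_Top J hW hWV
  have hTn : ‖T‖ ≤ 16 / 3 := norm_Top_le J hW
  set a := ‖U v - v‖ with ha
  set b := ‖V v - v‖ with hb
  have ha0 : 0 ≤ a := norm_nonneg _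
  have hb0 : 0 ≤ b := norm_nonneg _
  set x := V (U v) with hx
  have hUVx : U (V v) = W x := by
    have := congrArg (fun T : H →L[ℂ] H => T v) hUV
    simpa using this
  -- step 1
  have e1 : inner ℂ v ((T * (1 - W)) v) = inner ℂ x (T (x - W x)) := by
    have : (T * (1 - W)) v = T (v - W v) := by simp
    rw [this, ← inner_unitary hU v, ← inner_unitary hV (U v)]
    have c1 : U (T (v - W v)) = T (U v - W (U v)) := by
      have h1 := congrArg (fun S : H →L[ℂ] H => S (v - W v)) hTU.eq
      have h2 := congrArg (fun S : H →L[ℂ] H => S v) hWU.eq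
      simp only [mul_apply_eq_comp] at h1 h2
      rw [← h1, map_sub, ← h2]
    have c2 : V (T (U v - W (U v))) = T (x - W x) := by
      have h1 := congrArg (fun S : H →L[ℂ] H => S (U v - W (U v))) hTV.eq
      have h2 := congrArg (fun S : H →L[ℂ] H => S (U v)) hWV.eq
      simp only [mul_apply_eq_comp] at h1 h2
      rw [← h1, map_sub, ← h2]
    rw [c1, c2]
  -- x - W x = B A v - A B v
  have e2 : x - W x = (V (U v - v) - (U v - v)) - (U (V v - v) - (V v - v)) := by
    rw [map_sub, map_sub, hUVx, ← hx]; abel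
  have nT : ∀ y : H, ‖T y‖ ≤ 16 / 3 * ‖y‖ := fun y =>
    (T.le_opNorm y).trans (mul_le_mul_of_nonneg_right hTn (norm_nonneg _))
  set δ := ‖x - W x‖ with hδ
  have hδ0 : 0 ≤ δ := norm_nonneg _
  have hδ1 : δ ≤ 2 * a + 2 * b := by
    rw [hδ, e2]
    refine (norm_sub_le _ _).trans ?_
    have h1 : ‖V (U v - v) - (U v - v)‖ ≤ 2 * a := by
      refine (norm_sub_le _ _).trans ?_
      rw [norm_unitary hV]; linarith
    have h2 : ‖U (V v - v) - (V v - v)‖ ≤ 2 * b := by
      refine (norm_sub_le _ _).trans ?_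
      rw [norm_unitary hU]; linarith
    linarith
  -- T (x - W x)
  have e3 : T (x - W x) = (V (T (U v - v)) - T (U v - v)) - (U (T (V v - v)) - T (V v - v)) := by
    have h1 := congrArg (fun S : H →L[ℂ] H => S (U v - v)) hTV.eq
    have h2 := congrArg (fun S : H →L[ℂ] H => S (V v - v)) hTU.eq
    simp only [mul_apply_eq_comp] at h1 h2
    rw [e2, map_sub T, map_sub T, map_sub T (U (V v - v)), ← h1, ← h2]
  have e4 : ∀ (S : H →L[ℂ] H) (y : H), inner ℂ x (S y - y) = inner ℂ ((star S) x - x) y := by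
    intro S y
    rw [inner_sub_right, inner_sub_left, ContinuousLinearMap.star_eq_adjoint,
      ContinuousLinearMap.adjoint_inner_left]
  have e5 : inner ℂ x (T (x - W x)) = inner ℂ ((star V) x - x) (T (U v - v)) -
      inner ℂ ((star U) x - x) (T (V v - v)) := by
    rw [e3, inner_sub_right, e4, e4]
  -- norms
  have n1 : ‖(star V) x - x‖ ≤ b + δ := by
    have : (star V) x = U v := by rw [hx, star_mul_self_apply hV]
    rw [this]
    have h : U v - x = (U v - U (V v)) - (x - W x) := by rw [hUVx]; abel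
    rw [h]
    refine (norm_sub_le _ _).trans ?_
    have : ‖U v - U (V v)‖ = b := by
      rw [← map_sub, norm_unitary hU, norm_sub_rev]
    rw [this]
  have n2 : ‖(star U) x - x‖ ≤ a + δ := by
    -- ‖star U x - x‖ = ‖x - U x‖ ; star U V U v = star W V v
    have h1 : (star U) x = (star W) (V v) := by
      -- apply U: x = U (star W) (V v) = star W (U (V v)) = star W W x
      have c := commute_star_left hW hWU
      have h2 : U ((star W) (V v)) = x := by
        have h3 := congrArg (fun S : H →L[ℂ] H => S (V v)) c.eq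
        simp only [mul_apply_eq_comp] at h3
        rw [← h3, hUVx, star_mul_self_apply hW]
      rw [← h2, star_mul_self_apply hU]
    have h2 : (star W) (V v) = V ((star W) v) := by
      have c := commute_star_left hW hWV
      have h3 := congrArg (fun S : H →L[ℂ] H => S v) c.eq
      simpa only [mul_apply_eq_comp] using h3
    have h3 : (star U) x - x = V ((star W) v - U v) := by
      rw [h1, h2, hx, map_sub]
    rw [h3, norm_unitary hV]
    have h4 : (star W) v - U v = ((star W) v - v) - (U v - v) := by abel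
    rw [h4]
    refine (norm_sub_le _ _).trans ?_
    have h5 : ‖(star W) v - v‖ = δ := by
      have h6 : ‖(star W) v - v‖ = ‖v - W v‖ := by
        rw [← norm_unitary hW ((star W) v - v), map_sub, self_star_mul_apply hW]
      rw [h6, hδ]
      have h7 : x - W x = V (U (v - W v)) := by
        have g1 := congrArg (fun S : H →L[ℂ] H => S (U v)) hWV.eq
        have g2 := congrArg (fun S : H →L[ℂ] H => S v) hWU.eq
        simp only [mul_apply_eq_comp] at g1 g2
        rw [map_sub, map_sub, ← g2, ← g1]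
      rw [h7, norm_unitary hV, norm_unitary hU]
    rw [h5]; linarith
  have main : ‖inner ℂ v ((T * (1 - W)) v)‖ ≤ 27 * (a ^ 2 + b ^ 2) := by
    rw [e1, e5]
    refine (norm_sub_le _ _).trans ?_
    have m1 : ‖inner ℂ ((star V) x - x) (T (U v - v))‖ ≤ (b + δ) * (16 / 3 * a) :=
      (norm_inner_le_norm _ _).trans (mul_le_mul n1 (nT _) (norm_nonneg _) (by positivity))
    have m2 : ‖inner ℂ ((star U) x - x) (T (V v - v))‖ ≤ (a + δ) * (16 / 3 * b) :=
      (norm_inner_le_norm _ _).trans (mul_le_mul n2 (nT _) (norm_nonneg _) (by positivity))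
    nlinarith [sq_nonneg (a - b), mul_nonneg ha0 hb0, mul_le_mul_of_nonneg_right hδ1 ha0,
      mul_le_mul_of_nonneg_right hδ1 hb0]
  rw [hT, inner_Top] at main
  rw [Complex.norm_real, Real.norm_eq_abs] at main
  exact (le_abs_self _).trans main

end Pool.Agent.Helper81.Heis
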