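import Mathlib
import Pool.Agent.Helper81.Heis.Ineq

set_option autoImplicit false

namespace Pool.Agent.Helper81.Heis

open Finset

variable {P : Type*} [Fintype P]

/-- composition with a permutation, as an operator on `ℓ²(P)` -/
noncomputable def Rop (e : P ≃ P) : EuclideanSpace ℂ P →L[ℂ] EuclideanSpace ℂ P :=
  ((Unitary.linearIsometryEquiv.symm (LinearIsometryEquiv.piLpCongrLeft 2 ℂ ℂ e.symm) :
    unitary (EuclideanSpace ℂ P →L[ℂ] EuclideanSpace ℂ P)) :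
    EuclideanSpace ℂ P →L[ℂ] EuclideanSpace ℂ P)

lemma Rop_apply (e : P ≃ P) (g : EuclideanSpace ℂ P) (p : P) : (Rop e g) p = g (e p) := rfl

lemma Rop_mem (e : P ≃ P) : Rop e ∈ unitary (EuclideanSpace ℂ P →L[ℂ] EuclideanSpace ℂ P) :=
  Subtype.property _

lemma Rop_pow_apply (e : P ≃ P) (k : ℕ) (g : EuclideanSpace ℂ P) (p : P) :
    ((Rop e ^ k) g) p = g (e^[k] p) := by
  induction k generalizing g with
  | zero => rfl
  | succ k ih =>
    rw [pow_succ, mul_apply_eq_comp, ih, Rop_apply, Function.iterate_succ_apply']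

theorem perm_ineq_scalar (u v w : P ≃ P) (huv : ∀ p, v (u p) = u (v (w p)))
    (hwu : ∀ p, w (u p) = u (w p)) (hwv : ∀ p, w (v p) = v (w p)) (J : ℕ) (g : P → ℂ) :
    ∑ j ∈ range J, (1 / 4 : ℝ) ^ j * ∑ p, ‖g p - g (w^[4 ^ j] p)‖ ^ 2 ≤
      27 * (∑ p, ‖g (u p) - g p‖ ^ 2 + ∑ p, ‖g (v p) - g p‖ ^ 2) := by
  have h := heis_ineq (Rop_mem u) (Rop_mem v) (Rop_mem w) (by
      ext g p
      simp only [mul_apply_eq_comp, Rop_apply]
      rw [huv]) (by
      show Rop w * Rop u = Rop u * Rop w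
      ext g p
      simp only [mul_apply_eq_comp, Rop_apply]
      rw [hwu]) (by
      show Rop w * Rop v = Rop v * Rop w
      ext g p
      simp only [mul_apply_eq_comp, Rop_apply]
      rw [hwv]) J (WithLp.toLp 2 g)
  simp only [EuclideanSpace.norm_sq_eq, PiLp.sub_apply, Rop_apply, Rop_pow_apply] at h
  exact h

theorem perm_ineq (u v w : P ≃ P) (huv : ∀ p, v (u p) = u (v (w p)))
    (hwu : ∀ p, w (u p) = u (w p)) (hwv : ∀ p, w (v p) = v (w p)) (J : ℕ) {N : ℕ}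
    (φ : P → EuclideanSpace ℝ (Fin N)) :
    ∑ j ∈ range J, (1 / 4 : ℝ) ^ j * ∑ p, ‖φ (w^[4 ^ j] p) - φ p‖ ^ 2 ≤
      27 * (∑ p, ‖φ (u p) - φ p‖ ^ 2 + ∑ p, ‖φ (v p) - φ p‖ ^ 2) := by
  have key : ∀ σ : P → P, ∑ p, ‖φ (σ p) - φ p‖ ^ 2 =
      ∑ k : Fin N, ∑ p, ‖((φ (σ p) k : ℝ) : ℂ) - ((φ p k : ℝ) : ℂ)‖ ^ 2 := by
    intro σ
    rw [sum_comm]
    refine sum_congr rfl fun p _ => ?_
    rw [EuclideanSpace.norm_sq_eq]
    refine sum_congr rfl fun k _ => ?_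
    rw [← Complex.ofReal_sub, Complex.norm_real, PiLp.sub_apply]
  have h : ∀ k : Fin N, _ := fun k => perm_ineq_scalar u v w huv hwu hwv J
    (fun p => ((φ p k : ℝ) : ℂ))
  have h2 := sum_le_sum (fun k (_ : k ∈ (univ : Finset (Fin N))) => h k)
  rw [← mul_sum, sum_add_distrib, ← key, ← key, sum_comm] at h2
  refine le_trans (le_of_eq ?_) h2
  refine sum_congr rfl fun j _ => ?_
  rw [← mul_sum, key]
  congr 1
  refine sum_congr rfl fun k _ => sum_congr rfl fun p _ => ?_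
  rw [norm_sub_rev]

end Pool.Agent.Helper81.Heis
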