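import Mathlib
import Pool.Agent.Helper81.Heis.Perm

set_option autoImplicit false

namespace Pool.Agent.Helper81.Heis

open Finset

/-! ### a transfer lemma for cut-offs -/

lemma cutoff {P E : Type*} [Fintype P] [DecidableEq P] [NormedAddCommGroup E] (σ : P ≃ P)
    (B : Finset P) (φ : P → E) (C D : ℝ) (h0 : ∀ p, p ∉ B → φ p = 0) (hC : ∀ p, ‖φ p‖ ≤ C)
    (hD : ∀ p ∈ B, σ p ∈ B → ‖φ (σ p) - φ p‖ ≤ D) :
    ∑ p, ‖φ (σ p) - φ p‖ ^ 2 ≤ D ^ 2 * (B.card : ℝ) + 2 * C ^ 2 * ((B.filter (fun p => σ p ∉ B)).card : ℝ) := by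
  set b : P → ℝ := fun p => if p ∈ B then 1 else 0 with hb
  have hC0 : ∀ p : P, 0 ≤ C := fun p => (norm_nonneg _).trans (hC p)
  have key : ∀ p, ‖φ (σ p) - φ p‖ ^ 2 ≤
      D ^ 2 * b p + C ^ 2 * (b p * (1 - b (σ p))) + C ^ 2 * ((1 - b p) * b (σ p)) := by
    intro p
    by_cases h1 : p ∈ B
    · by_cases h2 : σ p ∈ B
      · have h3 := hD p h1 h2
        have h4 : ‖φ (σ p) - φ p‖ ^ 2 ≤ D ^ 2 := pow_le_pow_left₀ (norm_nonneg _) h3 2
        simp only [hb, h1, h2, if_true]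
        linarith
      · have h3 := hC p
        have h4 : ‖φ (σ p) - φ p‖ ^ 2 ≤ C ^ 2 := by
          rw [h0 _ h2, zero_sub, norm_neg]
          exact pow_le_pow_left₀ (norm_nonneg _) h3 2
        have h5 := sq_nonneg D
        simp only [hb, h1, h2, if_true, if_false]
        linarith
    · by_cases h2 : σ p ∈ B
      · have h3 := hC (σ p)
        have h4 : ‖φ (σ p) - φ p‖ ^ 2 ≤ C ^ 2 := by
          rw [h0 _ h1, sub_zero]
          exact pow_le_pow_left₀ (norm_nonneg _) h3 2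
        simp only [hb, h1, h2, if_true, if_false]
        linarith
      · rw [h0 _ h1, h0 _ h2]
        simp [hb, h1, h2]
  have hsum : ∑ p, b (σ p) = ∑ p, b p := Equiv.sum_comp σ b
  have e1 : ∑ p, b p = (B.card : ℝ) := by
    simp [hb]
  have e2 : ∑ p, b p * (1 - b (σ p)) = ((B.filter (fun p => σ p ∉ B)).card : ℝ) := by
    have : ∀ p, b p * (1 - b (σ p)) = if p ∈ B ∧ σ p ∉ B then 1 else 0 := by
      intro p
      by_cases h1 : p ∈ B <;> by_cases h2 : σ p ∈ B <;> simp [hb, h1, h2]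
    rw [sum_congr rfl fun p _ => this p, sum_boole]
    congr 2
    ext p
    simp
  have e3 : ∑ p, (1 - b p) * b (σ p) = ∑ p, b p * (1 - b (σ p)) := by
    rw [← sub_eq_zero, ← sum_sub_distrib]
    have : ∀ p, (1 - b p) * b (σ p) - b p * (1 - b (σ p)) = b (σ p) - b p := by
      intro p; ring
    rw [sum_congr rfl fun p _ => this p, sum_sub_distrib, hsum, sub_self]
  refine (sum_le_sum fun p _ => key p).trans ?_
  rw [sum_add_distrib, sum_add_distrib, ← mul_sum, ← mul_sum, ← mul_sum, e3, e2, e1]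
  apply le_of_eq; ring

/-! ### the cyclic grid -/

section grid

variable (Q : ℕ) [NeZero Q]

/-- grid -/
abbrev Grid := ZMod Q × ZMod Q × ZMod Q

/-- shift in the first coordinate -/
def uE : Grid Q ≃ Grid Q where
  toFun p := (p.1 + 1, p.2.1, p.2.2)
  invFun p := (p.1 - 1, p.2.1, p.2.2)
  left_inv p := by simp
  right_inv p := by simp

/-- the other horizontal shift -/
def vE : Grid Q ≃ Grid Q where
  toFun p := (p.1, p.2.1 + 1, p.2.2 + p.1)
  invFun p := (p.1, p.2.1 - 1, p.2.2 - p.1)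
  left_inv p := by simp
  right_inv p := by simp

/-- vertical shift -/
def wE : Grid Q ≃ Grid Q where
  toFun p := (p.1, p.2.1, p.2.2 + 1)
  invFun p := (p.1, p.2.1, p.2.2 - 1)
  left_inv p := by simp
  right_inv p := by simp

lemma wE_iter (m : ℕ) (p : Grid Q) : (wE Q)^[m] p = (p.1, p.2.1, p.2.2 + m) := by
  induction m with
  | zero => simp
  | succ m ih =>
    rw [Function.iterate_succ_apply', ih]
    show (p.1, p.2.1, p.2.2 + (m : ZMod Q) + 1) = _
    push_cast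
    rw [add_assoc]

theorem grid_ineq (J : ℕ) {N : ℕ} (φ : Grid Q → EuclideanSpace ℝ (Fin N)) :
    ∑ j ∈ range J, (1 / 4 : ℝ) ^ j * ∑ p : Grid Q, ‖φ ((wE Q)^[4 ^ j] p) - φ p‖ ^ 2 ≤
      27 * (∑ p : Grid Q, ‖φ (uE Q p) - φ p‖ ^ 2 + ∑ p : Grid Q, ‖φ (vE Q p) - φ p‖ ^ 2) := by
  apply perm_ineq
  · rintro ⟨x, y, z⟩
    show (x + 1, y + 1, z + (x + 1)) = (x + 1, y + 1, z + 1 + x)
    rw [add_right_comm, add_assoc]
  · rintro ⟨x, y, z⟩
    rfl
  · rintro ⟨x, y, z⟩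
    show (x, y + 1, z + x + 1) = (x, y + 1, z + 1 + x)
    rw [add_right_comm]

/-- residues with representative in `[a, b)` -/
def I (a b : ℕ) : Finset (ZMod Q) := univ.filter fun x => a ≤ x.val ∧ x.val < b

lemma mem_I {a b : ℕ} {x : ZMod Q} : x ∈ I Q a b ↔ a ≤ x.val ∧ x.val < b := by simp [I]

lemma card_I {a b : ℕ} (hb : b ≤ Q) : (I Q a b).card = b - a := by
  rw [← Nat.card_Ico a b]
  refine card_nbij (fun x => x.val) ?_ ?_ ?_
  · intro x hx
    have hx' := (mem_I Q).mp (Finset.mem_coe.mp hx)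
    exact Finset.mem_coe.mpr (mem_Ico.mpr hx')
  · intro x _ y _ h
    exact ZMod.val_injective Q h
  · intro k hk
    have hk' : a ≤ k ∧ k < b := mem_Ico.mp (by simpa using hk)
    refine ⟨(k : ZMod Q), ?_, ?_⟩
    · show (k : ZMod Q) ∈ I Q a b
      rw [mem_I, ZMod.val_natCast_of_lt (hk'.2.trans_le hb)]
      exact hk'
    · exact ZMod.val_natCast_of_lt (hk'.2.trans_le hb)

/-- the box -/
def box (n : ℕ) : Finset (Grid Q) := I Q 0 n ×ˢ I Q 0 n ×ˢ I Q 0 (n ^ 2)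

lemma mem_box {n : ℕ} {p : Grid Q} : p ∈ box Q n ↔ p.1.val < n ∧ p.2.1.val < n ∧ p.2.2.val < n ^ 2 := by
  simp [box, mem_I]

end grid

theorem box_ineq {N : ℕ} (v : ℤ → ℤ → ℤ → EuclideanSpace ℝ (Fin N)) (C D : ℝ) (c : ℕ → ℝ) (J : ℕ)
    (hC : ∀ x y z, ‖v x y z‖ ≤ C)
    (hD1 : ∀ x y z, ‖v (x + 1) y z - v x y z‖ ≤ D)
    (hD2 : ∀ x y z, ‖v x (y + 1) (z + x) - v x y z‖ ≤ D)
    (hc : ∀ x y z, ∀ j < J, c j ≤ ‖v x y (z + 4 ^ j) - v x y z‖ ^ 2)
    (n : ℕ) (hn : 0 < n) (hnJ : 4 ^ J ≤ n ^ 2) :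
    ∑ j ∈ range J, (1 / 4 : ℝ) ^ j * (c j * (n ^ 2 * (n ^ 2 - 4 ^ j))) ≤
      27 * (2 * D ^ 2 * n ^ 4 + 6 * C ^ 2 * n ^ 3) := by
  classical
  set Q : ℕ := 2 * n ^ 2 + 2 with hQ
  have : NeZero Q := ⟨by omega⟩
  have hnn : n ≤ n ^ 2 := by nlinarith
  set B := box Q n with hB
  set φ : Grid Q → EuclideanSpace ℝ (Fin N) := fun p =>
    if p ∈ B then v (p.1.val : ℤ) (p.2.1.val : ℤ) (p.2.2.val : ℤ) else 0 with hφ
  have hC0 : 0 ≤ C := (norm_nonneg _).trans (hC 0 0 0)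
  have hφ0 : ∀ p, p ∉ B → φ p = 0 := fun p hp => by simp [hφ, hp]
  have hφ1 : ∀ p, p ∈ B → φ p = v (p.1.val : ℤ) (p.2.1.val : ℤ) (p.2.2.val : ℤ) :=
    fun p hp => by simp [hφ, hp]
  have hφC : ∀ p, ‖φ p‖ ≤ C := by
    intro p
    by_cases hp : p ∈ B
    · rw [hφ1 p hp]; exact hC _ _ _
    · rw [hφ0 p hp, norm_zero]; exact hC0
  have hBcard : (B.card : ℝ) = n ^ 4 := by
    have : B.card = n * (n * n ^ 2) := by
      rw [hB, box, card_product, card_product, card_I Q (by omega), card_I Q (by omega)]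
      simp
    rw [this]; push_cast; ring
  have one_val : (1 : ZMod Q).val = 1 := by
    have := ZMod.val_natCast_of_lt (n := Q) (a := 1) (by omega)
    simpa using this
  -- u
  have hu : ∑ p : Grid Q, ‖φ (uE Q p) - φ p‖ ^ 2 ≤ D ^ 2 * n ^ 4 + 2 * C ^ 2 * n ^ 3 := by
    have h1 := cutoff (uE Q) B φ C D hφ0 hφC (by
      intro p hp hp2
      rw [hφ1 _ hp, hφ1 _ hp2]
      have h := mem_box Q |>.mp hp
      have e : (p.1 + 1).val = p.1.val + 1 := by
        rw [ZMod.val_add_of_lt, one_val]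
        rw [one_val]; omega
      show ‖v ((p.1 + 1).val : ℤ) (p.2.1.val : ℤ) (p.2.2.val : ℤ) - _‖ ≤ D
      rw [e]; push_cast
      exact hD1 _ _ _)
    have h2 : (B.filter (fun p => uE Q p ∉ B)).card ≤ n ^ 3 := by
      have : B.filter (fun p => uE Q p ∉ B) ⊆ I Q (n - 1) n ×ˢ I Q 0 n ×ˢ I Q 0 (n ^ 2) := by
        intro p hp
        rw [mem_filter] at hp
        have h := mem_box Q |>.mp hp.1
        have h' := hp.2
        rw [hB, mem_box] at h'
        have e : (p.1 + 1).val = p.1.val + 1 := by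
          rw [ZMod.val_add_of_lt, one_val]
          rw [one_val]; omega
        have h'' : ¬ ((p.1 + 1).val < n ∧ p.2.1.val < n ∧ p.2.2.val < n ^ 2) := h'
        rw [e] at h''
        simp only [mem_product, mem_I]
        refine ⟨⟨?_, h.1⟩, ⟨Nat.zero_le _, h.2.1⟩, ⟨Nat.zero_le _, h.2.2⟩⟩
        by_contra hcon
        exact h'' ⟨by omega, h.2.1, h.2.2⟩
      refine (card_le_card this).trans ?_
      rw [card_product, card_product, card_I Q (by omega), card_I Q (by omega), card_I Q (by omega)]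
      have : n - (n - 1) = 1 := by omega
      rw [this]
      simp
      apply le_of_eq; ring
    have h3 : ((B.filter (fun p => uE Q p ∉ B)).card : ℝ) ≤ n ^ 3 := by exact_mod_cast h2
    rw [hBcard] at h1
    refine h1.trans ?_
    have : 0 ≤ 2 * C ^ 2 := by positivity
    nlinarith
  -- v
  have hv : ∑ p : Grid Q, ‖φ (vE Q p) - φ p‖ ^ 2 ≤ D ^ 2 * n ^ 4 + 2 * C ^ 2 * (2 * n ^ 3) := by
    have hval : ∀ p ∈ B, (p.2.1 + 1).val = p.2.1.val + 1 ∧ (p.2.2 + p.1).val = p.2.2.val + p.1.val := by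
      intro p hp
      have h := mem_box Q |>.mp hp
      constructor
      · rw [ZMod.val_add_of_lt, one_val]
        rw [one_val]; omega
      · rw [ZMod.val_add_of_lt]
        omega
    have h1 := cutoff (vE Q) B φ C D hφ0 hφC (by
      intro p hp hp2
      rw [hφ1 _ hp, hφ1 _ hp2]
      obtain ⟨e1, e2⟩ := hval p hp
      show ‖v (p.1.val : ℤ) ((p.2.1 + 1).val : ℤ) ((p.2.2 + p.1).val : ℤ) - _‖ ≤ D
      rw [e1, e2]; push_cast
      exact hD2 _ _ _)
    have h2 : (B.filter (fun p => vE Q p ∉ B)).card ≤ 2 * n ^ 3 := by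
      have : B.filter (fun p => vE Q p ∉ B) ⊆ (I Q 0 n ×ˢ I Q (n - 1) n ×ˢ I Q 0 (n ^ 2)) ∪
          (I Q 0 n ×ˢ I Q 0 n ×ˢ I Q (n ^ 2 - n) (n ^ 2)) := by
        intro p hp
        rw [mem_filter] at hp
        have h := mem_box Q |>.mp hp.1
        have h' := hp.2
        obtain ⟨e1, e2⟩ := hval p hp.1
        rw [hB, mem_box] at h'
        have h'' : ¬ (p.1.val < n ∧ (p.2.1 + 1).val < n ∧ (p.2.2 + p.1).val < n ^ 2) := h'
        rw [e1, e2] at h''
        simp only [mem_union, mem_product, mem_I]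
        by_cases hy : p.2.1.val + 1 < n
        · right
          refine ⟨⟨Nat.zero_le _, h.1⟩, ⟨Nat.zero_le _, h.2.1⟩, ⟨?_, h.2.2⟩⟩
          by_contra hcon
          exact h'' ⟨h.1, hy, by omega⟩
        · left
          exact ⟨⟨Nat.zero_le _, h.1⟩, ⟨by omega, h.2.1⟩, ⟨Nat.zero_le _, h.2.2⟩⟩
      refine (card_le_card this).trans ?_
      refine (card_union_le _ _).trans ?_
      rw [card_product, card_product, card_product, card_product, card_I Q (by omega),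
        card_I Q (by omega), card_I Q (by omega), card_I Q (by omega)]
      have e1 : n - (n - 1) = 1 := by omega
      have e2 : n ^ 2 - (n ^ 2 - n) = n := by omega
      rw [e1, e2]
      simp
      apply le_of_eq; ring
    have h3 : ((B.filter (fun p => vE Q p ∉ B)).card : ℝ) ≤ 2 * n ^ 3 := by exact_mod_cast h2
    rw [hBcard] at h1
    refine h1.trans ?_
    have : 0 ≤ 2 * C ^ 2 := by positivity
    nlinarith
  -- w
  have hw : ∀ j < J, c j * (n ^ 2 * (n ^ 2 - 4 ^ j)) ≤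
      ∑ p : Grid Q, ‖φ ((wE Q)^[4 ^ j] p) - φ p‖ ^ 2 := by
    intro j hj
    have hjn : 4 ^ j ≤ n ^ 2 := (Nat.pow_le_pow_right (by norm_num) hj.le).trans hnJ
    have h4j : 0 < 4 ^ j := by positivity
    set S : Finset (Grid Q) := I Q 0 n ×ˢ I Q 0 n ×ˢ I Q 0 (n ^ 2 - 4 ^ j) with hS
    have hScard : (S.card : ℝ) = n ^ 2 * (n ^ 2 - 4 ^ j) := by
      have : S.card = n * (n * (n ^ 2 - 4 ^ j)) := by
        rw [hS, card_product, card_product, card_I Q (by omega), card_I Q (by omega)]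
        simp
      rw [this]; push_cast [Nat.cast_sub hjn]; ring
    calc c j * (n ^ 2 * (n ^ 2 - 4 ^ j)) = ∑ p ∈ S, c j := by
          rw [sum_const, nsmul_eq_mul, hScard, mul_comm]
      _ ≤ ∑ p ∈ S, ‖φ ((wE Q)^[4 ^ j] p) - φ p‖ ^ 2 := by
          refine sum_le_sum fun p hp => ?_
          simp only [hS, mem_product, mem_I] at hp
          obtain ⟨⟨_, p1⟩, ⟨_, p2⟩, ⟨_, p3⟩⟩ := hp
          have hval : ((4 ^ j : ℕ) : ZMod Q).val = 4 ^ j := ZMod.val_natCast_of_lt (by omega)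
          have e : (p.2.2 + ((4 ^ j : ℕ) : ZMod Q)).val = p.2.2.val + 4 ^ j := by
            rw [ZMod.val_add_of_lt, hval]
            rw [hval]; omega
          have m1 : p ∈ B := by
            rw [hB, mem_box]; exact ⟨p1, p2, by omega⟩
          have m2 : (wE Q)^[4 ^ j] p ∈ B := by
            rw [hB, mem_box, wE_iter]
            refine ⟨p1, p2, ?_⟩
            show (p.2.2 + ((4 ^ j : ℕ) : ZMod Q)).val < n ^ 2
            rw [e]; omega
          rw [hφ1 _ m1, hφ1 _ m2, wE_iter]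
          show c j ≤ ‖v (p.1.val : ℤ) (p.2.1.val : ℤ) ((p.2.2 + ((4 ^ j : ℕ) : ZMod Q)).val : ℤ) - _‖ ^ 2
          rw [e]; push_cast
          exact hc _ _ _ j hj
      _ ≤ ∑ p : Grid Q, ‖φ ((wE Q)^[4 ^ j] p) - φ p‖ ^ 2 :=
          sum_le_univ_sum_of_nonneg fun p => by positivity
  have main := grid_ineq Q J φ
  have l1 : ∑ j ∈ range J, (1 / 4 : ℝ) ^ j * (c j * (n ^ 2 * (n ^ 2 - 4 ^ j))) ≤
      ∑ j ∈ range J, (1 / 4 : ℝ) ^ j * ∑ p : Grid Q, ‖φ ((wE Q)^[4 ^ j] p) - φ p‖ ^ 2 :=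
    sum_le_sum fun j hj => mul_le_mul_of_nonneg_left (hw j (mem_range.mp hj)) (by positivity)
  refine (l1.trans main).trans ?_
  nlinarith

end Pool.Agent.Helper81.Heis
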