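import Mathlib

set_option autoImplicit false

namespace Pool.Agent.Helper81.Heis

open Finset

section

variable {E : Type*} [NormedAddCommGroup E] [NormedSpace ℝ E]
  (F : ℤ → ℤ → ℤ → E) (K : ℝ)

lemma stepU (h1 : ∀ x y z, ‖F (x + 1) y z - F x y z‖ ≤ K) (m : ℕ) (x y z : ℤ) :
    ‖F (x + m) y z - F x y z‖ ≤ m * K := by
  induction m with
  | zero => simp
  | succ m ih =>
    have h := h1 (x + m) y z
    have e : F (x + (m + 1 : ℕ)) y z - F x y z =
        (F (x + m + 1) y z - F (x + m) y z) + (F (x + m) y z - F x y z) := by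
      push_cast
      rw [← add_assoc]; abel
    rw [e]
    refine (norm_add_le _ _).trans ?_
    push_cast
    linarith

lemma stepV (h2 : ∀ x y z, ‖F x (y + 1) (z + x) - F x y z‖ ≤ K) (m : ℕ) (x y z : ℤ) :
    ‖F x (y + m) (z + m * x) - F x y z‖ ≤ m * K := by
  induction m with
  | zero => simp
  | succ m ih =>
    have h := h2 x (y + m) (z + m * x)
    have e : F x (y + (m + 1 : ℕ)) (z + (m + 1 : ℕ) * x) - F x y z =
        (F x (y + m + 1) (z + m * x + x) - F x (y + m) (z + m * x)) +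
          (F x (y + m) (z + m * x) - F x y z) := by
      have e1 : y + ((m + 1 : ℕ) : ℤ) = y + m + 1 := by push_cast; ring
      have e2 : z + ((m + 1 : ℕ) : ℤ) * x = z + m * x + x := by push_cast; ring
      rw [e1, e2]; abel
    rw [e]
    refine (norm_add_le _ _).trans ?_
    push_cast
    linarith

lemma stepSq (h1 : ∀ x y z, ‖F (x + 1) y z - F x y z‖ ≤ K)
    (h2 : ∀ x y z, ‖F x (y + 1) (z + x) - F x y z‖ ≤ K) (m : ℕ) (x y z : ℤ) :
    ‖F x y (z + m ^ 2) - F x y z‖ ≤ 4 * m * K := by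
  have a1 := stepV F K h2 m (x - m) (y - m) (z - m * (x - m))
  have a2 := stepU F K h1 m (x - m) y z
  have a3 := stepU F K h1 m (x - m) (y - m) (z - m * (x - m))
  have a4 := stepV F K h2 m x (y - m) (z - m * (x - m))
  rw [sub_add_cancel, sub_add_cancel] at a1
  rw [sub_add_cancel] at a2 a3 a4
  have e : z - m * (x - m) + m * x = z + m ^ 2 := by ring
  rw [e] at a4
  set A := F (x - m) (y - m) (z - m * (x - m))
  set B := F (x - m) y z
  set D := F x (y - m) (z - m * (x - m))
  have e2 : F x y (z + m ^ 2) - F x y z =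
      (F x y (z + m ^ 2) - D) + (D - A) - (B - A) - (F x y z - B) := by abel
  rw [e2]
  refine (norm_sub_le _ _).trans ?_
  have b1 := norm_sub_le ((F x y (z + m ^ 2) - D) + (D - A)) (B - A)
  have b2 := norm_add_le (F x y (z + m ^ 2) - D) (D - A)
  linarith

lemma stepC (h1 : ∀ x y z, ‖F (x + 1) y z - F x y z‖ ≤ K)
    (h2 : ∀ x y z, ‖F x (y + 1) (z + x) - F x y z‖ ≤ K) (m : ℕ) (x y z : ℤ) :
    ‖F x y (z + m) - F x y z‖ ≤ m * (4 * K) := by
  induction m with
  | zero => simp
  | succ m ih =>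
    have h := stepSq F K h1 h2 1 x y (z + m)
    simp only [Nat.cast_one, one_pow, mul_one] at h
    have e : F x y (z + (m + 1 : ℕ)) - F x y z =
        (F x y (z + m + 1) - F x y (z + m)) + (F x y (z + m) - F x y z) := by
      push_cast
      rw [← add_assoc]; abel
    rw [e]
    refine (norm_add_le _ _).trans ?_
    push_cast
    linarith

/-- the average over `L` vertical steps -/
noncomputable def avg (L : ℕ) (x y z : ℤ) : E :=
  (1 / (L : ℝ)) • ∑ i ∈ range L, F x y (z + i)

lemma avg_sub_avg {L : ℕ} (hL : 0 < L) (K : ℝ) (x y z x' y' z' : ℤ)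
    (h : ∀ i ∈ range L, ‖F x y (z + i) - F x' y' (z' + i)‖ ≤ K) :
    ‖avg F L x y z - avg F L x' y' z'‖ ≤ K := by
  have hL' : (0 : ℝ) < L := by exact_mod_cast hL
  unfold avg
  rw [← smul_sub, ← sum_sub_distrib, norm_smul]
  have h2 : ‖∑ i ∈ range L, (F x y (z + i) - F x' y' (z' + i))‖ ≤ L * K := by
    refine (norm_sum_le _ _).trans ?_
    refine (sum_le_sum h).trans ?_
    simp
  have h3 : ‖1 / (L : ℝ)‖ = 1 / L := by
    rw [Real.norm_eq_abs, abs_of_pos (by positivity)]
  rw [h3]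
  calc 1 / (L : ℝ) * ‖∑ i ∈ range L, (F x y (z + i) - F x' y' (z' + i))‖
      ≤ 1 / (L : ℝ) * (L * K) := mul_le_mul_of_nonneg_left h2 (by positivity)
    _ = K := by field_simp

theorem high_pass (κ : ℝ) (hk : 0 < κ)
    (h1 : ∀ x y z, ‖F (x + 1) y z - F x y z‖ ≤ K)
    (h2 : ∀ x y z, ‖F x (y + 1) (z + x) - F x y z‖ ≤ K)
    (h3 : ∀ x y z (j : ℕ), κ * 4 ^ j / (j + 1) ≤ ‖F x y (z + 4 ^ j) - F x y z‖ ^ 2) (J : ℕ) :
    ∃ (v : ℤ → ℤ → ℤ → E) (C : ℝ), (∀ x y z, ‖v x y z‖ ≤ C) ∧
      (∀ x y z, ‖v (x + 1) y z - v x y z‖ ≤ 2 * K) ∧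
      (∀ x y z, ‖v x (y + 1) (z + x) - v x y z‖ ≤ 2 * K) ∧
      (∀ x y z, ∀ j < J, κ * 4 ^ j / (4 * (j + 1)) ≤ ‖v x y (z + 4 ^ j) - v x y z‖ ^ 2) := by
  have hK : 0 ≤ K := (norm_nonneg _).trans (h1 0 0 0)
  have hsk : 0 < Real.sqrt κ := Real.sqrt_pos.mpr hk
  obtain ⟨M0, hM0⟩ := exists_nat_ge (8 * 4 ^ J * K / Real.sqrt κ)
  set M : ℕ := M0 + 1 with hM
  have hMpos : 0 < M := Nat.succ_pos _
  have hMR : (0 : ℝ) < M := by exact_mod_cast hMpos
  have hMb : 8 * 4 ^ J * K ≤ M * Real.sqrt κ := by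
    rw [div_le_iff₀ hsk] at hM0
    have : (M0 : ℝ) ≤ M := by exact_mod_cast Nat.le_succ _
    nlinarith
  set L : ℕ := M ^ 2 with hL
  have hLpos : 0 < L := by positivity
  have hLR : (0 : ℝ) < L := by exact_mod_cast hLpos
  refine ⟨fun x y z => F x y z - avg F L x y z, L * (4 * K), ?_, ?_, ?_, ?_⟩
  · intro x y z
    have e : F x y z - avg F L x y z = (1 / (L : ℝ)) • ∑ i ∈ range L, (F x y z - F x y (z + i)) := by
      unfold avg
      rw [sum_sub_distrib, smul_sub, sum_const, card_range, ← Nat.cast_smul_eq_nsmul ℝ, smul_smul,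
        one_div_mul_cancel hLR.ne', one_smul]
    show ‖F x y z - avg F L x y z‖ ≤ L * (4 * K)
    rw [e, norm_smul]
    have h4 : ‖∑ i ∈ range L, (F x y z - F x y (z + i))‖ ≤ L * (L * (4 * K)) := by
      refine (norm_sum_le _ _).trans ?_
      have : ∀ i ∈ range L, ‖F x y z - F x y (z + i)‖ ≤ L * (4 * K) := by
        intro i hi
        rw [norm_sub_rev]
        refine (stepC F K h1 h2 i x y z).trans ?_
        have : (i : ℝ) ≤ L := by exact_mod_cast (mem_range.mp hi).le
        exact mul_le_mul_of_nonneg_right this (by positivity)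
      refine (sum_le_sum this).trans ?_
      simp
    have h5 : ‖1 / (L : ℝ)‖ = 1 / L := by
      rw [Real.norm_eq_abs, abs_of_pos (by positivity)]
    rw [h5]
    calc 1 / (L : ℝ) * ‖∑ i ∈ range L, (F x y z - F x y (z + i))‖
        ≤ 1 / (L : ℝ) * (L * (L * (4 * K))) := mul_le_mul_of_nonneg_left h4 (by positivity)
      _ = L * (4 * K) := by field_simp
  · intro x y z
    have e : (F (x + 1) y z - avg F L (x + 1) y z) - (F x y z - avg F L x y z)
        = (F (x + 1) y z - F x y z) - (avg F L (x + 1) y z - avg F L x y z) := by abel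
    show ‖(F (x + 1) y z - avg F L (x + 1) y z) - (F x y z - avg F L x y z)‖ ≤ 2 * K
    rw [e]
    refine (norm_sub_le _ _).trans ?_
    have a1 := h1 x y z
    have a2 := avg_sub_avg F hLpos K (x + 1) y z x y z (fun i _ => h1 x y (z + i))
    linarith
  · intro x y z
    have e : (F x (y + 1) (z + x) - avg F L x (y + 1) (z + x)) - (F x y z - avg F L x y z)
        = (F x (y + 1) (z + x) - F x y z) - (avg F L x (y + 1) (z + x) - avg F L x y z) := by abel
    show ‖(F x (y + 1) (z + x) - avg F L x (y + 1) (z + x)) - (F x y z - avg F L x y z)‖ ≤ 2 * K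
    rw [e]
    refine (norm_sub_le _ _).trans ?_
    have a1 := h2 x y z
    have a2 := avg_sub_avg F hLpos K x (y + 1) (z + x) x y z (fun i _ => by
      have := h2 x y (z + i)
      rwa [add_right_comm] at this)
    linarith
  · intro x y z j hj
    have hm : (4 : ℤ) ^ j = ((4 ^ j : ℕ) : ℤ) := by push_cast; rfl
    set m : ℕ := 4 ^ j with hmdef
    -- difference of averages
    have e1 : avg F L x y (z + m) - avg F L x y z =
        (1 / (L : ℝ)) • ∑ i ∈ range m, (F x y (z + i + M ^ 2) - F x y (z + i)) := by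
      unfold avg
      rw [← smul_sub]
      congr 1
      rw [sum_sub_distrib]
      have s1 : ∑ i ∈ range L, F x y (z + m + i) + ∑ i ∈ range m, F x y (z + i) =
          ∑ i ∈ range (m + L), F x y (z + i) := by
        rw [sum_range_add (fun i : ℕ => F x y (z + i)) m L, add_comm]
        congr 1
        refine sum_congr rfl fun i _ => ?_
        push_cast; rw [add_assoc]
      have s2 : ∑ i ∈ range m, F x y (z + i + M ^ 2) + ∑ i ∈ range L, F x y (z + i) =
          ∑ i ∈ range (L + m), F x y (z + i) := by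
        rw [sum_range_add (fun i : ℕ => F x y (z + i)) L m, add_comm]
        congr 1
        refine sum_congr rfl fun i _ => ?_
        congr 1
        rw [hL]; push_cast; ring
      rw [add_comm m L, ← s2] at s1
      have := sub_eq_sub_iff_add_eq_add.mpr s1
      exact this
    have e2 : ‖avg F L x y (z + m) - avg F L x y z‖ ≤ 4 * m * K / M := by
      rw [e1, norm_smul]
      have h4 : ‖∑ i ∈ range m, (F x y (z + i + M ^ 2) - F x y (z + i))‖ ≤ m * (4 * M * K) := by
        refine (norm_sum_le _ _).trans ?_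
        have h7 : ∀ i ∈ range m, ‖F x y (z + (i : ℤ) + M ^ 2) - F x y (z + (i : ℤ))‖ ≤ 4 * M * K :=
          fun i _ => stepSq F K h1 h2 M x y (z + (i : ℤ))
        refine (sum_le_sum h7).trans ?_
        simp
      have h5 : ‖1 / (L : ℝ)‖ = 1 / (M : ℝ) ^ 2 := by
        rw [Real.norm_eq_abs, abs_of_pos (by positivity), hL]; push_cast; rfl
      rw [h5]
      calc 1 / (M : ℝ) ^ 2 * ‖∑ i ∈ range m, (F x y (z + i + M ^ 2) - F x y (z + i))‖
          ≤ 1 / (M : ℝ) ^ 2 * (m * (4 * M * K)) := mul_le_mul_of_nonneg_left h4 (by positivity)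
        _ = 4 * m * K / M := by field_simp
    have e3 : 4 * m * K / M ≤ Real.sqrt κ / 2 := by
      rw [div_le_div_iff₀ hMR two_pos]
      have : (m : ℝ) ≤ 4 ^ J := by
        rw [hmdef]; push_cast
        exact pow_le_pow_right₀ (by norm_num) hj.le
      nlinarith
    have h6 := h3 x y z j
    set s := ‖F x y (z + 4 ^ j) - F x y z‖ with hs
    have hs0 : 0 ≤ s := norm_nonneg _
    have hκs : κ ≤ κ * 4 ^ j / (j + 1) := by
      rw [le_div_iff₀ (by positivity)]
      have : (j : ℝ) + 1 ≤ 4 ^ j := by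
        have h := Nat.lt_pow_self (show 1 < 4 by norm_num) (n := j)
        have h' : j + 1 ≤ 4 ^ j := h
        exact_mod_cast h'
      nlinarith
    have hs1 : Real.sqrt κ ≤ s := by
      rw [← Real.sqrt_sq hs0]
      exact Real.sqrt_le_sqrt (hκs.trans h6)
    have e4 : s / 2 ≤ ‖(F x y (z + 4 ^ j) - avg F L x y (z + 4 ^ j)) - (F x y z - avg F L x y z)‖ := by
      have e : (F x y (z + 4 ^ j) - avg F L x y (z + 4 ^ j)) - (F x y z - avg F L x y z)
        = (F x y (z + 4 ^ j) - F x y z) - (avg F L x y (z + 4 ^ j) - avg F L x y z) := by abel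
      rw [e]
      have := norm_sub_norm_le (F x y (z + 4 ^ j) - F x y z) (avg F L x y (z + 4 ^ j) - avg F L x y z)
      rw [hm] at this ⊢
      rw [hm] at hs
      linarith
    show κ * 4 ^ j / (4 * (j + 1)) ≤
      ‖(F x y (z + 4 ^ j) - avg F L x y (z + 4 ^ j)) - (F x y z - avg F L x y z)‖ ^ 2
    have e5 : (s / 2) ^ 2 ≤
        ‖(F x y (z + 4 ^ j) - avg F L x y (z + 4 ^ j)) - (F x y z - avg F L x y z)‖ ^ 2 :=
      pow_le_pow_left₀ (by positivity) e4 2
    refine le_trans ?_ e5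
    have e6 : κ * 4 ^ j / (4 * (j + 1)) = (κ * 4 ^ j / (j + 1)) / 4 := by
      field_simp
    rw [e6]
    nlinarith

end

end Pool.Agent.Helper81.Heis
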