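import Mathlib
import Pool.Agent.Helper81.Heis.HighPass
import Pool.Agent.Helper81.Heis.Box

set_option autoImplicit false

namespace Pool.Agent.Helper81.Heis

open Finset

/-- A Euclidean-space-valued function on the discrete Heisenberg group which is Lipschitz in the
horizontal directions cannot satisfy the vertical lower bounds `κ 4^j/(j+1)` at all scales. -/
theorem no_disc (N : ℕ) (F : ℤ → ℤ → ℤ → EuclideanSpace ℝ (Fin N)) (K κ : ℝ) (hk : 0 < κ)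
    (h1 : ∀ x y z, ‖F (x+1) y z - F x y z‖ ≤ K)
    (h2 : ∀ x y z, ‖F x (y+1) (z+x) - F x y z‖ ≤ K)
    (h3 : ∀ x y z (j : ℕ), κ * 4^j/(j+1) ≤ ‖F x y (z+4^j) - F x y z‖^2) : False := by
  -- harmonic divergence
  have key : ∀ J : ℕ, κ / 8 * ∑ j ∈ range J, (1 / ((j : ℝ) + 1)) ≤ 27 * (8 * K ^ 2 + 1) := by
    intro J
    obtain ⟨v, C, hC, hD1, hD2, hc⟩ := high_pass F K κ hk h1 h2 h3 J
    obtain ⟨n0, hn0⟩ := exists_nat_ge (6 * C ^ 2)
    set n : ℕ := max (n0 + 1) (2 * 4 ^ J) with hn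
    have hnpos : 0 < n := lt_of_lt_of_le (Nat.succ_pos _) (le_max_left _ _)
    have hn1 : 2 * 4 ^ J ≤ n := le_max_right _ _
    have hn2 : 6 * C ^ 2 ≤ n := by
      refine hn0.trans ?_
      have : n0 ≤ n := (Nat.le_succ _).trans (le_max_left _ _)
      exact_mod_cast this
    have hnJ : 4 ^ J ≤ n ^ 2 := by nlinarith
    have hb := box_ineq v C (2 * K) (fun j => κ * 4 ^ j / (4 * (j + 1))) J hC hD1 hD2 hc n hnpos hnJ
    have hnR : (0 : ℝ) < n := by exact_mod_cast hnpos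
    have hn1R : 2 * 4 ^ J ≤ (n : ℝ) := by exact_mod_cast hn1
    have hn1' : (1 : ℝ) ≤ n := by exact_mod_cast hnpos
    have l : κ / 8 * (∑ j ∈ range J, (1 / ((j : ℝ) + 1))) * n ^ 4 ≤
        ∑ j ∈ range J, (1 / 4 : ℝ) ^ j * ((κ * 4 ^ j / (4 * (j + 1))) * (n ^ 2 * (n ^ 2 - 4 ^ j))) := by
      rw [mul_sum, sum_mul]
      refine sum_le_sum fun j hj => ?_
      have hjJ : (4 : ℝ) ^ j ≤ 4 ^ J := pow_le_pow_right₀ (by norm_num) (mem_range.mp hj).le
      have h4 : (1 / 4 : ℝ) ^ j * 4 ^ j = 1 := by rw [← mul_pow]; norm_num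
      have hj1 : (0 : ℝ) < (j : ℝ) + 1 := by positivity
      have e : (1 / 4 : ℝ) ^ j * ((κ * 4 ^ j / (4 * (j + 1))) * (n ^ 2 * (n ^ 2 - 4 ^ j))) =
          ((1 / 4 : ℝ) ^ j * 4 ^ j) * (κ / (4 * (j + 1)) * (n ^ 2 * (n ^ 2 - 4 ^ j))) := by
        ring
      rw [e, h4, one_mul]
      have e2 : κ / 8 * (1 / ((j : ℝ) + 1)) * n ^ 4 = κ / (4 * (j + 1)) * (n ^ 2 * (n ^ 2 / 2)) := by
        field_simp
        ring
      rw [e2]
      apply mul_le_mul_of_nonneg_left _ (by positivity)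
      apply mul_le_mul_of_nonneg_left _ (by positivity)
      nlinarith
    have hb' := l.trans hb
    have r : 27 * (2 * (2 * K) ^ 2 * (n : ℝ) ^ 4 + 6 * C ^ 2 * n ^ 3) ≤ 27 * (8 * K ^ 2 + 1) * n ^ 4 := by
      have : 6 * C ^ 2 * (n : ℝ) ^ 3 ≤ n ^ 4 := by
        have := mul_le_mul_of_nonneg_right hn2 (by positivity : (0 : ℝ) ≤ (n : ℝ) ^ 3)
        calc 6 * C ^ 2 * (n : ℝ) ^ 3 ≤ n * n ^ 3 := this
          _ = n ^ 4 := by ring
      nlinarith
    exact le_of_mul_le_mul_right (hb'.trans r) (by positivity)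
  have hdiv := Real.tendsto_sum_range_one_div_nat_succ_atTop
  obtain ⟨J, hJ⟩ := (hdiv.eventually_gt_atTop (27 * (8 * K ^ 2 + 1) / (κ / 8))).exists
  have := key J
  rw [div_lt_iff₀ (by positivity)] at hJ
  linarith

end Pool.Agent.Helper81.Heis
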